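import Pool.Agent.N569.VT.Defs
import Pool.Agent.H297.FT.Knotoid

/-!
# VT7: closedness, knotoids and writhe of a diagram with a word drawn in the box
-/

set_option autoImplicit false

namespace Pool.Agent.N75.VT

open Pool.Agent.H891R2.Jones Pool.Agent.W639.RB Pool.Agent.TH561 Pool.Agent.N569.TW Pool.Agent.N569.VT
  Finset LaurentPolynomial

variable {m : ℕ}

/-- VT7: closedness and writhe -/
theorem writhe (O : Outer m) (hup : ∀ j, O.up j = true) (W : List (Bool × ℕ))
    (hW : ∀ x ∈ W, x.2 + 1 < m) :
    (draw O W).close.writhe = O.close.writhe + expo W := by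
  rw [close_writhe, close_writhe, (draw_up W O hW hup).2]

theorem closed (O : Outer m) (hO : O.close.IsClosed) (hup : ∀ j, O.up j = true)
    (W : List (Bool × ℕ)) (hW : ∀ x ∈ W, x.2 + 1 < m) : (draw O W).close.IsClosed :=
  draw_closed W O hW hup hO

theorem kgood_draw (v : Fin m → Bool) (w : List (Bool × ℕ)) : ∀ (O : Outer m),
    Pool.Agent.H297.FT.KGood O v → Pool.Agent.H297.FT.KGood (draw O w) v := by
  induction w with
  | nil => intro O h; exact h
  | cons x w ih =>
    intro O h
    exact ih _ (Pool.Agent.H297.FT.KGood_push O v x.1 x.2 h)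

theorem knotoid (O : Outer m) (hO : Pool.Agent.H832R3.TW.IsKnotoid O.close)
    (hup : ∀ j, O.up j = true) (W : List (Bool × ℕ)) (hW : ∀ x ∈ W, x.2 + 1 < m) :
    Pool.Agent.H832R3.TW.IsKnotoid (draw O W).close := by
  rw [Pool.Agent.H297.FT.knotoid_iff] at hO ⊢
  have h1 : (draw O W).up = O.up := by
    funext j
    rw [hup, (draw_up W O hW hup).1]
  rw [h1]
  exact kgood_draw _ W O hO

/-- the writhe of a positive diagram -/
theorem wr_pos (O : Outer m) (hpos : ∀ x ∈ O.crossings, x.sign = 1) :
    O.close.writhe = O.crossings.length := by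
  rw [close_writhe]
  unfold owr
  have h : O.crossings.map Crossing.sign = O.crossings.map (fun _ => (1 : ℤ)) :=
    List.map_congr_left hpos
  rw [h]
  simp

end Pool.Agent.N75.VT
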